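import Mathlib

/-!
# Project CA: the threefold convolution over the characters modulo `M`
-/

set_option autoImplicit false

open Finset

namespace Pool.Agent.Helper58.CA

/-- The character sum `∑_{l ∈ L} w(l) χ(l)`. -/
noncomputable def S (L : Finset ℕ) (w : ℕ → ℝ) {M : ℕ} (χ : DirichletCharacter ℂ M) : ℂ :=
  ∑ l ∈ L, (w l : ℂ) * χ (l : ZMod M)

/-- Orthogonality, in the form used here. -/
theorem orth {M : ℕ} [NeZero M] {a : ZMod M} (ha : IsUnit a) (b : ZMod M) :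
    ∑ χ : DirichletCharacter ℂ M, χ a⁻¹ * χ b = if b = a then (M.totient : ℂ) else 0 := by
  have h := DirichletCharacter.sum_char_inv_mul_char_eq ℂ ha b
  rw [h]
  by_cases hab : a = b
  · simp [hab]
  · have : ¬ b = a := fun h' => hab h'.symm
    simp [hab, this]

theorem star_char {M : ℕ} [NeZero M] (χ : DirichletCharacter ℂ M) {a : ZMod M} (ha : IsUnit a) :
    (starRingEnd ℂ) (χ a) = χ a⁻¹ := by
  have h1 : (starRingEnd ℂ) (χ a) = χ⁻¹ a := by
    exact MulChar.star_apply' χ a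
  rw [h1, MulChar.inv_apply_eq_inv']
  have h2 : χ a * χ a⁻¹ = 1 := by
    rw [← map_mul, ZMod.mul_inv_of_unit a ha, map_one]
  exact inv_eq_of_mul_eq_one_right h2

theorem isUnit_cast {M l : ℕ} (h : l.Coprime M) : IsUnit (l : ZMod M) :=
  (ZMod.isUnit_iff_coprime l M).mpr h

/-- Parseval. -/
theorem parseval {M : ℕ} [NeZero M] (L : Finset ℕ) (w : ℕ → ℝ)
    (hco : ∀ l ∈ L, l.Coprime M) :
    ∑ χ : DirichletCharacter ℂ M, ‖S L w χ‖ ^ 2 =
      M.totient * ∑ l ∈ L, w l * ∑ m ∈ L.filter (fun m : ℕ => (m : ZMod M) = (l : ZMod M)), w m := by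
  have h1 : ∀ χ : DirichletCharacter ℂ M, ((‖S L w χ‖ ^ 2 : ℝ) : ℂ) =
      ∑ l ∈ L, ∑ m ∈ L, (w l : ℂ) * (w m : ℂ) * (χ (l : ZMod M)⁻¹ * χ (m : ZMod M)) := by
    intro χ
    have h2 : ((‖S L w χ‖ ^ 2 : ℝ) : ℂ) = (starRingEnd ℂ) (S L w χ) * S L w χ := by
      rw [mul_comm, Complex.mul_conj, Complex.normSq_eq_norm_sq]
    rw [h2]
    unfold S
    rw [map_sum, Finset.sum_mul_sum]
    refine Finset.sum_congr rfl fun l hl => Finset.sum_congr rfl fun m hm => ?_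
    rw [map_mul, Complex.conj_ofReal, star_char χ (isUnit_cast (hco l hl))]
    ring
  have h3 : ((∑ χ : DirichletCharacter ℂ M, ‖S L w χ‖ ^ 2 : ℝ) : ℂ) =
      ((M.totient * ∑ l ∈ L, w l * ∑ m ∈ L.filter (fun m : ℕ => (m : ZMod M) = (l : ZMod M)), w m : ℝ) : ℂ) := by
    rw [Complex.ofReal_sum, Finset.sum_congr rfl (fun χ _ => h1 χ), Finset.sum_comm]
    push_cast
    rw [Finset.mul_sum]
    refine Finset.sum_congr rfl fun l hl => ?_
    rw [Finset.sum_comm, Finset.sum_filter, Finset.mul_sum, Finset.mul_sum]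
    refine Finset.sum_congr rfl fun m hm => ?_
    rw [← Finset.mul_sum, orth (isUnit_cast (hco l hl))]
    split_ifs <;> ring
  exact_mod_cast h3

/-- The cubic identity. -/
theorem cubic {M : ℕ} [NeZero M] (L : Finset ℕ) (w : ℕ → ℝ) {a : ZMod M} (ha : IsUnit a) :
    ∑ χ : DirichletCharacter ℂ M, χ a⁻¹ * S L w χ ^ 3 =
      ((M.totient * ∑ x ∈ (L ×ˢ L ×ˢ L) with ((x.1 * (x.2.1 * x.2.2) : ℕ) : ZMod M) = a,
        w x.1 * (w x.2.1 * w x.2.2) : ℝ) : ℂ) := by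
  have h1 : ∀ χ : DirichletCharacter ℂ M, χ a⁻¹ * S L w χ ^ 3 =
      ∑ x ∈ L ×ˢ L ×ˢ L, ((w x.1 : ℂ) * ((w x.2.1 : ℂ) * (w x.2.2 : ℂ))) *
        (χ a⁻¹ * χ ((x.1 * (x.2.1 * x.2.2) : ℕ) : ZMod M)) := by
    intro χ
    have h2 : S L w χ ^ 3 = ∑ x ∈ L ×ˢ L ×ˢ L, ((w x.1 : ℂ) * ((w x.2.1 : ℂ) * (w x.2.2 : ℂ))) *
        χ ((x.1 * (x.2.1 * x.2.2) : ℕ) : ZMod M) := by
      have h3 : S L w χ ^ 3 = S L w χ * (S L w χ * S L w χ) := by ring
      rw [h3]
      unfold S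
      rw [Finset.sum_mul_sum L L, ← Finset.sum_product', Finset.sum_mul_sum,
        ← Finset.sum_product']
      refine Finset.sum_congr rfl fun x _ => ?_
      push_cast
      rw [map_mul, map_mul]
      ring
    rw [h2, Finset.mul_sum]
    refine Finset.sum_congr rfl fun x _ => ?_
    ring
  rw [Finset.sum_congr rfl (fun χ _ => h1 χ), Finset.sum_comm]
  push_cast
  rw [Finset.sum_filter, Finset.mul_sum]
  refine Finset.sum_congr rfl fun x _ => ?_
  rw [← Finset.mul_sum, orth ha]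
  split_ifs <;> ring

/-- Threefold products: if the weights `w` have at most the mass `K` in each class modulo `M` and
all character sums outside `E` are at most `c`, then every reduced class modulo `M` carries the
expected number of threefold products, up to `c · K · F` and the contribution of `E`. -/
theorem cube {M : ℕ} [NeZero M] (L : Finset ℕ) (w : ℕ → ℝ) (hw : ∀ l ∈ L, 0 ≤ w l)
    (hco : ∀ l ∈ L, l.Coprime M) {K c : ℝ} (hc0 : 0 ≤ c)
    (hK : ∀ a : ZMod M, IsUnit a → ∑ l ∈ L.filter (fun l : ℕ => (l : ZMod M) = a), w l ≤ K)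
    (E : Finset (DirichletCharacter ℂ M))
    (hc : ∀ χ : DirichletCharacter ℂ M, χ ≠ 1 → χ ∉ E → ‖S L w χ‖ ≤ c)
    {a : ZMod M} (ha : IsUnit a) :
    (∑ l ∈ L, w l) ^ 3 - c * (M.totient * K * ∑ l ∈ L, w l)
        - ∑ χ ∈ E with χ ≠ 1, ‖S L w χ‖ ^ 3 ≤
      M.totient * ∑ x ∈ (L ×ˢ L ×ˢ L) with ((x.1 * (x.2.1 * x.2.2) : ℕ) : ZMod M) = a,
        w x.1 * (w x.2.1 * w x.2.2) := by
  classical
  set F : ℝ := ∑ l ∈ L, w l with hF
  set T : ℝ := M.totient * ∑ x ∈ (L ×ˢ L ×ˢ L) with ((x.1 * (x.2.1 * x.2.2) : ℕ) : ZMod M) = a,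
        w x.1 * (w x.2.1 * w x.2.2) with hT
  have hS1 : S L w (1 : DirichletCharacter ℂ M) = (F : ℂ) := by
    unfold S
    rw [hF, Complex.ofReal_sum]
    refine Finset.sum_congr rfl fun l hl => ?_
    rw [MulChar.one_apply (isUnit_cast (hco l hl)), mul_one]
  have ha' : IsUnit (a⁻¹ : ZMod M) := by
    obtain ⟨u, rfl⟩ := ha
    have h0 : ((u : ZMod M))⁻¹ = ((u⁻¹ : (ZMod M)ˣ) : ZMod M) := ZMod.inv_coe_unit u
    rw [h0]
    exact Units.isUnit _
  have hid := cubic L w ha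
  rw [← Finset.add_sum_erase Finset.univ _ (Finset.mem_univ (1 : DirichletCharacter ℂ M)), hS1,
    MulChar.one_apply ha', one_mul, ← hT] at hid
  -- the error
  set R : ℝ := ∑ χ ∈ (Finset.univ : Finset (DirichletCharacter ℂ M)).erase 1, ‖S L w χ‖ ^ 3 with hR
  have hnorm : ‖∑ χ ∈ (Finset.univ : Finset (DirichletCharacter ℂ M)).erase 1,
      χ a⁻¹ * S L w χ ^ 3‖ ≤ R := by
    refine (norm_sum_le _ _).trans (Finset.sum_le_sum fun χ _ => ?_)
    rw [norm_mul, norm_pow]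
    have : ‖χ a⁻¹‖ ≤ 1 := DirichletCharacter.norm_le_one χ _
    calc ‖χ a⁻¹‖ * ‖S L w χ‖ ^ 3 ≤ 1 * ‖S L w χ‖ ^ 3 :=
          mul_le_mul_of_nonneg_right this (by positivity)
      _ = ‖S L w χ‖ ^ 3 := one_mul _
  have h1 : F ^ 3 - R ≤ T := by
    have h2 : (T : ℂ) - (F : ℂ) ^ 3 = ∑ χ ∈ (Finset.univ : Finset (DirichletCharacter ℂ M)).erase 1,
      χ a⁻¹ * S L w χ ^ 3 := by
      rw [← hid]; ring
    have h3 : ‖(T : ℂ) - (F : ℂ) ^ 3‖ ≤ R := by rw [h2]; exact hnorm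
    have h4 : ‖((T - F ^ 3 : ℝ) : ℂ)‖ ≤ R := by
      push_cast
      exact h3
    rw [Complex.norm_real, Real.norm_eq_abs] at h4
    have h5 := (abs_le.mp h4).1
    linarith
  -- bound for the error
  have h2 : R ≤ c * (M.totient * K * F) + ∑ χ ∈ E with χ ≠ 1, ‖S L w χ‖ ^ 3 := by
    have hsplit : R = ∑ χ ∈ ((Finset.univ : Finset (DirichletCharacter ℂ M)).erase 1) with χ ∉ E,
        ‖S L w χ‖ ^ 3 + ∑ χ ∈ ((Finset.univ : Finset (DirichletCharacter ℂ M)).erase 1) with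
          ¬ (χ ∉ E), ‖S L w χ‖ ^ 3 := by
      rw [hR, Finset.sum_filter_add_sum_filter_not]
    have hE : ∑ χ ∈ ((Finset.univ : Finset (DirichletCharacter ℂ M)).erase 1) with
          ¬ (χ ∉ E), ‖S L w χ‖ ^ 3 = ∑ χ ∈ E with χ ≠ 1, ‖S L w χ‖ ^ 3 := by
      refine Finset.sum_congr ?_ fun _ _ => rfl
      ext χ
      simp only [Finset.mem_filter, Finset.mem_erase, Finset.mem_univ, and_true, not_not]
      tauto
    have hmain : ∑ χ ∈ ((Finset.univ : Finset (DirichletCharacter ℂ M)).erase 1) with χ ∉ E,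
        ‖S L w χ‖ ^ 3 ≤ c * (M.totient * K * F) := by
      have h3 : ∑ χ ∈ ((Finset.univ : Finset (DirichletCharacter ℂ M)).erase 1) with χ ∉ E,
          ‖S L w χ‖ ^ 3 ≤ ∑ χ ∈ ((Finset.univ : Finset (DirichletCharacter ℂ M)).erase 1) with χ ∉ E,
          c * ‖S L w χ‖ ^ 2 := by
        refine Finset.sum_le_sum fun χ hχ => ?_
        simp only [Finset.mem_filter, Finset.mem_erase, Finset.mem_univ, and_true] at hχ
        have := hc χ hχ.1 hχ.2
        calc ‖S L w χ‖ ^ 3 = ‖S L w χ‖ * ‖S L w χ‖ ^ 2 := by ring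
          _ ≤ c * ‖S L w χ‖ ^ 2 := mul_le_mul_of_nonneg_right this (by positivity)
      have h4 : ∑ χ ∈ ((Finset.univ : Finset (DirichletCharacter ℂ M)).erase 1) with χ ∉ E,
          c * ‖S L w χ‖ ^ 2 ≤ ∑ χ : DirichletCharacter ℂ M, c * ‖S L w χ‖ ^ 2 :=
        Finset.sum_le_sum_of_subset_of_nonneg (Finset.subset_univ _)
          (fun _ _ _ => by positivity)
      rw [← Finset.mul_sum Finset.univ, parseval L w hco] at h4
      refine h3.trans (h4.trans (mul_le_mul_of_nonneg_left ?_ hc0))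
      rw [mul_assoc]
      refine mul_le_mul_of_nonneg_left ?_ (Nat.cast_nonneg _)
      rw [hF, Finset.mul_sum]
      refine Finset.sum_le_sum fun l hl => ?_
      rw [mul_comm K]
      exact mul_le_mul_of_nonneg_left (hK _ (isUnit_cast (hco l hl))) (hw l hl)
    rw [hsplit, hE]
    linarith
  linarith

end Pool.Agent.Helper58.CA
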