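import Pool.Agent.Helper61.CA.St
import Pool.Agent.Helper18.BV.WtLemmas

/-!
# Project CA: elementary sums over reciprocals of integers in residue classes
-/

set_option autoImplicit false

open Finset

namespace Pool.Agent.Helper58.CA

open Pool.Agent.Helper18.BV
open Pool.Agent.Helper61.CA

theorem harm {Q : ℝ} (hQ : 1 ≤ Q) :
    ∑ k ∈ Icc 1 ⌊Q⌋₊, 1 / (k : ℝ) ≤ 1 + Real.log Q := by
  have h1 := harmonic_le_one_add_log ⌊Q⌋₊
  rw [harmonic_eq_sum_Icc] at h1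
  push_cast at h1
  have h2 : Real.log (⌊Q⌋₊ : ℝ) ≤ Real.log Q := by
    have h3 : 0 < ⌊Q⌋₊ := Nat.floor_pos.mpr hQ
    exact Real.log_le_log (by exact_mod_cast h3) (Nat.floor_le (by linarith))
  have h4 : ∑ k ∈ Icc 1 ⌊Q⌋₊, 1 / (k : ℝ) = ∑ k ∈ Icc 1 ⌊Q⌋₊, ((k : ℝ))⁻¹ :=
    Finset.sum_congr rfl fun k _ => one_div _
  rw [h4]
  linarith

/-- Reciprocals of the integers `b ≤ Q`, `b ≥ 2`, in the class `1` modulo `m`. -/
theorem sum_mod_one {Q : ℝ} (hQ : 1 ≤ Q) {m : ℕ} (hm : 1 ≤ m) (U : Finset ℕ)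
    (hU : ∀ b ∈ U, 2 ≤ b ∧ b ≤ ⌊Q⌋₊ ∧ m ∣ b - 1) :
    ∑ b ∈ U, 1 / (b : ℝ) ≤ (1 + Real.log Q) / m := by
  have hm' : (0 : ℝ) < m := by exact_mod_cast hm
  have hinj : Set.InjOn (fun b => (b - 1) / m) (U : Set ℕ) := by
    intro b hb c hc hbc
    obtain ⟨hb2, _, hbd⟩ := hU b hb
    obtain ⟨hc2, _, hcd⟩ := hU c hc
    have h1 : m * ((b - 1) / m) = b - 1 := Nat.mul_div_cancel' hbd
    have h2 : m * ((c - 1) / m) = c - 1 := Nat.mul_div_cancel' hcd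
    have h3 : (b - 1) / m = (c - 1) / m := hbc
    rw [h3] at h1
    omega
  have h1 : ∑ b ∈ U, 1 / (b : ℝ) ≤ ∑ b ∈ U, (1 / (m : ℝ)) * (1 / (((b - 1) / m : ℕ) : ℝ)) := by
    refine Finset.sum_le_sum fun b hb => ?_
    obtain ⟨hb2, _, hbd⟩ := hU b hb
    obtain ⟨k, hk⟩ := hbd
    have hk1 : 1 ≤ k := by
      rcases Nat.eq_zero_or_pos k with h | h
      · subst h
        omega
      · exact h
    have hk2 : (b - 1) / m = k := by
      rw [hk]
      exact Nat.mul_div_cancel_left k (by omega)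
    rw [hk2]
    have hk' : (0 : ℝ) < k := by exact_mod_cast hk1
    have hbk : (m : ℝ) * k ≤ b := by
      have : m * k ≤ b := by omega
      exact_mod_cast this
    calc 1 / (b : ℝ) ≤ 1 / ((m : ℝ) * k) := one_div_le_one_div_of_le (by positivity) hbk
      _ = (1 / (m : ℝ)) * (1 / (k : ℝ)) := by
          rw [one_div_mul_one_div]
  have h2 : ∑ b ∈ U, (1 / (((b - 1) / m : ℕ) : ℝ)) ≤ ∑ k ∈ Icc 1 ⌊Q⌋₊, 1 / (k : ℝ) := by
    rw [← Finset.sum_image (f := fun k : ℕ => 1 / (k : ℝ)) hinj]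
    refine Finset.sum_le_sum_of_subset_of_nonneg ?_ fun k _ _ => by positivity
    intro k hk
    obtain ⟨b, hb, rfl⟩ := Finset.mem_image.mp hk
    obtain ⟨hb2, hb3, hbd⟩ := hU b hb
    rw [Finset.mem_Icc]
    obtain ⟨j, hj⟩ := hbd
    have hj1 : 1 ≤ j := by
      rcases Nat.eq_zero_or_pos j with h | h
      · subst h
        omega
      · exact h
    have hk2 : (b - 1) / m = j := by
      rw [hj]
      exact Nat.mul_div_cancel_left j (by omega)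
    have h5 : j ≤ m * j := Nat.le_mul_of_pos_left j (by omega)
    simp only [hk2]
    omega
  calc ∑ b ∈ U, 1 / (b : ℝ) ≤ ∑ b ∈ U, (1 / (m : ℝ)) * (1 / (((b - 1) / m : ℕ) : ℝ)) := h1
    _ = (1 / (m : ℝ)) * ∑ b ∈ U, (1 / (((b - 1) / m : ℕ) : ℝ)) := by rw [Finset.mul_sum]
    _ ≤ (1 / (m : ℝ)) * (1 + Real.log Q) :=
        mul_le_mul_of_nonneg_left (h2.trans (harm hQ)) (by positivity)
    _ = (1 + Real.log Q) / m := by ring

/-- Reciprocals of the integers `M ≤ l ≤ Q` in one class modulo `M`. -/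
theorem sum_class {Q : ℝ} (hQ : 1 ≤ Q) {M : ℕ} (hM : 1 ≤ M) (U : Finset ℕ)
    (hU : ∀ l ∈ U, M ≤ l ∧ l ≤ ⌊Q⌋₊) (hcl : ∀ l ∈ U, ∀ l' ∈ U, l ≡ l' [MOD M]) :
    ∑ l ∈ U, 1 / (l : ℝ) ≤ (1 + Real.log Q) / M := by
  have hM' : (0 : ℝ) < M := by exact_mod_cast hM
  have hinj : Set.InjOn (fun b => b / M) (U : Set ℕ) := by
    intro b hb c hc hbc
    have h3 : b / M = c / M := hbc
    have h4 : b % M = c % M := hcl b hb c hc
    rw [← Nat.div_add_mod b M, ← Nat.div_add_mod c M, h3, h4]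
  have h1 : ∑ b ∈ U, 1 / (b : ℝ) ≤ ∑ b ∈ U, (1 / (M : ℝ)) * (1 / ((b / M : ℕ) : ℝ)) := by
    refine Finset.sum_le_sum fun b hb => ?_
    obtain ⟨hb1, _⟩ := hU b hb
    have hk1 : 1 ≤ b / M := (Nat.one_le_div_iff (by omega)).mpr hb1
    have hk' : (0 : ℝ) < ((b / M : ℕ) : ℝ) := by exact_mod_cast hk1
    have hbk : (M : ℝ) * ((b / M : ℕ) : ℝ) ≤ b := by
      have : M * (b / M) ≤ b := Nat.mul_div_le b M
      exact_mod_cast this
    calc 1 / (b : ℝ) ≤ 1 / ((M : ℝ) * ((b / M : ℕ) : ℝ)) :=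
          one_div_le_one_div_of_le (by positivity) hbk
      _ = (1 / (M : ℝ)) * (1 / ((b / M : ℕ) : ℝ)) := by
          rw [one_div_mul_one_div]
  have h2 : ∑ b ∈ U, (1 / ((b / M : ℕ) : ℝ)) ≤ ∑ k ∈ Icc 1 ⌊Q⌋₊, 1 / (k : ℝ) := by
    rw [← Finset.sum_image (f := fun k : ℕ => 1 / (k : ℝ)) hinj]
    refine Finset.sum_le_sum_of_subset_of_nonneg ?_ fun k _ _ => by positivity
    intro k hk
    obtain ⟨b, hb, rfl⟩ := Finset.mem_image.mp hk
    obtain ⟨hb1, hb2⟩ := hU b hb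
    rw [Finset.mem_Icc]
    exact ⟨(Nat.one_le_div_iff (by omega)).mpr hb1, (Nat.div_le_self b M).trans hb2⟩
  calc ∑ b ∈ U, 1 / (b : ℝ) ≤ ∑ b ∈ U, (1 / (M : ℝ)) * (1 / ((b / M : ℕ) : ℝ)) := h1
    _ = (1 / (M : ℝ)) * ∑ b ∈ U, (1 / ((b / M : ℕ) : ℝ)) := by rw [Finset.mul_sum]
    _ ≤ (1 / (M : ℝ)) * (1 + Real.log Q) :=
        mul_le_mul_of_nonneg_left (h2.trans (harm hQ)) (by positivity)
    _ = (1 + Real.log Q) / M := by ring

theorem tail_sq {m N : ℕ} (hm : 1 ≤ m) : ∑ q ∈ Ioc m N, (1 / (q : ℝ)) ^ 2 ≤ 1 / (m : ℝ) := by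
  have hm' : (0 : ℝ) < m := by exact_mod_cast hm
  rcases le_or_gt m N with h | h
  · have h1 := sum_Ioc_inv_sq_le_sub (α := ℝ) (k := m) (n := N) (by omega) h
    have h2 : ∑ q ∈ Ioc m N, (1 / (q : ℝ)) ^ 2 = ∑ i ∈ Ioc m N, ((i : ℝ) ^ 2)⁻¹ :=
      Finset.sum_congr rfl fun i _ => by rw [one_div, inv_pow]
    rw [h2]
    have h3 : (0 : ℝ) ≤ (N : ℝ)⁻¹ := by positivity
    rw [one_div]
    linarith
  · rw [Finset.Ioc_eq_empty (by omega), Finset.sum_empty]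
    positivity

/-- The majorant of the weights. -/
noncomputable def nu (Q : ℝ) (l : ℕ) : ℝ := by
  classical
  exact if Real.sqrt Q < l ∧ (l : ℝ) ≤ Q then 1 / (l : ℝ) else 0

theorem nu_nonneg (Q : ℝ) (l : ℕ) : 0 ≤ nu Q l := by
  unfold nu
  split_ifs <;> positivity

theorem nu_le (Q : ℝ) (l : ℕ) : nu Q l ≤ 1 / (l : ℝ) := by
  unfold nu
  split_ifs
  · exact le_rfl
  · positivity

theorem nu_of_ne {Q : ℝ} {l : ℕ} (h : nu Q l ≠ 0) : Real.sqrt Q < l ∧ (l : ℝ) ≤ Q := by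
  unfold nu at h
  by_contra hc
  exact h (if_neg hc)

theorem sw_nonneg {g : ℝ → ℝ} (hg : IsWt g) (Q : ℝ) (l : ℕ) : 0 ≤ sw g Q l := by
  unfold sw
  exact mul_nonneg (Real.log_natCast_nonneg l) (wt_nonneg hg Q l)

theorem sw_le {g : ℝ → ℝ} (hg : IsWt g) : ∃ G : ℝ, 0 < G ∧ ∀ Q : ℝ, 1 < Q → ∀ l : ℕ,
    sw g Q l ≤ G * Real.log Q * nu Q l := by
  obtain ⟨G, hG, hb⟩ := hg.exists_bound
  refine ⟨G, hG, fun Q hQ l => ?_⟩
  have hu : 0 < Real.log Q := Real.log_pos hQ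
  by_cases h1 : Real.sqrt Q < l
  · by_cases h2 : (l : ℝ) ≤ Q
    · have hl : (0 : ℝ) < l := lt_of_le_of_lt (Real.sqrt_nonneg Q) h1
      have hnu : nu Q l = 1 / (l : ℝ) := by
        unfold nu
        exact if_pos ⟨h1, h2⟩
      rw [hnu]
      unfold sw wt
      have h3 : Real.log l ≤ Real.log Q := Real.log_le_log hl h2
      have h4 : 0 ≤ Real.log l := Real.log_natCast_nonneg l
      have h5 := hb (Real.log l / Real.log Q)
      have h6 := hg.nonneg (Real.log l / Real.log Q)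
      calc Real.log l * (g (Real.log l / Real.log Q) / l)
          ≤ Real.log Q * (G / l) := by
            refine mul_le_mul h3 (div_le_div_of_nonneg_right h5 hl.le) (by positivity) hu.le
        _ = G * Real.log Q * (1 / (l : ℝ)) := by ring
    · have h3 : sw g Q l = 0 := by
        unfold sw wt
        have h4 : 1 ≤ Real.log l / Real.log Q := by
          rw [le_div_iff₀ hu, one_mul]
          exact Real.log_le_log (by linarith) (not_le.mp h2).le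
        rw [hg.zero_of_ge h4]
        simp
      rw [h3]
      exact mul_nonneg (mul_nonneg hG.le hu.le) (nu_nonneg _ _)
  · have h3 : sw g Q l = 0 := by
      unfold sw
      rw [wt_zero hg hQ (by rw [← Real.sqrt_eq_rpow]; exact not_lt.mp h1)]
      simp
    rw [h3]
    exact mul_nonneg (mul_nonneg hG.le hu.le) (nu_nonneg _ _)

/-- `exp (- u ^ κ)` beats every power of `u`. -/
theorem beats {κ : ℝ} (hκ : 0 < κ) (C s : ℝ) : ∃ X0 : ℝ, 3 ≤ X0 ∧ ∀ Q : ℝ, X0 ≤ Q →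
    C * Real.log Q ^ s * Real.exp (-(Real.log Q ^ κ)) ≤ 1 := by
  have h1 := tendsto_rpow_mul_exp_neg_mul_atTop_nhds_zero (s / κ) 1 one_pos
  have h2 : Filter.Tendsto (fun Q : ℝ => Real.log Q ^ κ) Filter.atTop Filter.atTop :=
    (tendsto_rpow_atTop hκ).comp Real.tendsto_log_atTop
  have h3 := (h1.comp h2).const_mul C
  rw [mul_zero] at h3
  have h4 := (h3.eventually_le_const (by norm_num : (0 : ℝ) < 1))
  obtain ⟨X1, hX1⟩ := Filter.eventually_atTop.mp h4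
  refine ⟨max X1 3, le_max_right _ _, fun Q hQ => ?_⟩
  have h5 := hX1 Q (le_trans (le_max_left _ _) hQ)
  have hQ3 : 3 ≤ Q := le_trans (le_max_right _ _) hQ
  have hu : 0 < Real.log Q := Real.log_pos (by linarith)
  simp only [Function.comp] at h5
  rw [← Real.rpow_mul hu.le, mul_div_cancel₀ s hκ.ne'] at h5
  have h6 : (-1 : ℝ) * Real.log Q ^ κ = -(Real.log Q ^ κ) := by ring
  rw [h6] at h5
  linarith

end Pool.Agent.Helper58.CA
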